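import Mathlib

namespace Pool.Agent.H28Lm

open MvPolynomial KaehlerDifferential TensorProduct

theorem lin_of_basis {L : Type*} [Field L] [CharZero L] (A : Subring L) {t : Type*}
    (x : t → L) (hb : IsTranscendenceBasis A x) :
    LinearIndependent L (fun i => KaehlerDifferential.D A L (x i)) := by
  classical
  let : Algebra (MvPolynomial t A) L := (aeval x : MvPolynomial t A →ₐ[A] L).toRingHom.toAlgebra
  have hmap : ∀ p : MvPolynomial t A, algebraMap (MvPolynomial t A) L p = aeval x p :=
    fun _ => rfl
  have : IsScalarTower A (MvPolynomial t A) L := IsScalarTower.of_algebraMap_eq fun a => by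
    rw [hmap, MvPolynomial.algebraMap_eq, aeval_C]
  have hinj : Function.Injective (algebraMap (MvPolynomial t A) L) := hb.1
  have : FaithfulSMul (MvPolynomial t A) L := (faithfulSMul_iff_algebraMap_injective _ _).2 hinj
  let : Algebra (FractionRing (MvPolynomial t A)) L := FractionRing.liftAlgebra _ _
  have : IsScalarTower (MvPolynomial t A) (FractionRing (MvPolynomial t A)) L :=
    FractionRing.isScalarTower_liftAlgebra _ _
  have : Algebra.IsAlgebraic (MvPolynomial t A) L := by
    have h1 := hb.isAlgebraic
    exact Algebra.IsAlgebraic.of_ringHom_of_comp_eq (S := Algebra.adjoin A (Set.range x)) (B := L)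
      (hb.1.aevalEquiv : MvPolynomial t A →ₐ[A] _).toRingHom (RingHom.id L)
      hb.1.aevalEquiv.surjective Function.injective_id (by
        ext p
        · simp [hmap]
        · simp [hmap])
  have : Algebra.IsAlgebraic (FractionRing (MvPolynomial t A)) L :=
    Algebra.IsAlgebraic.extendScalars (R := MvPolynomial t A)
      (IsFractionRing.injective (MvPolynomial t A) (FractionRing (MvPolynomial t A)))
  have : CharZero (FractionRing (MvPolynomial t A)) :=
    (algebraMap (FractionRing (MvPolynomial t A)) L).charZero
  have : Algebra.FormallyEtale (FractionRing (MvPolynomial t A)) L :=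
    Algebra.FormallyEtale.of_isSeparable _ _
  have : Algebra.FormallyEtale (MvPolynomial t A) (FractionRing (MvPolynomial t A)) :=
    Algebra.FormallyEtale.of_isLocalization (nonZeroDivisors (MvPolynomial t A))
  have : Algebra.FormallyEtale (MvPolynomial t A) L :=
    Algebra.FormallyEtale.comp _ (FractionRing (MvPolynomial t A)) _
  let b := (mvPolynomialBasis A t).baseChange L
  let e := tensorKaehlerEquivOfFormallyEtale A (MvPolynomial t A) L
  have h2 := (b.map e).linearIndependent
  convert h2 using 1
  ext i
  simp [b, e, hmap]

/-- **Package A**: algebraic independence gives linearly independent differentials. -/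
theorem lin_of_alg {L : Type*} [Field L] [CharZero L] (A : Subring L) {ι : Type*}
    (x : ι → L) (h : AlgebraicIndependent A x) :
    LinearIndependent L (fun i => KaehlerDifferential.D A L (x i)) := by
  classical
  obtain ⟨t, ht, hb⟩ := exists_isTranscendenceBasis_superset h.coe_range
  have h1 := lin_of_basis A _ hb
  exact h1.comp (fun i : ι => (⟨x i, ht (Set.mem_range_self i)⟩ : t)) fun i j hij =>
    h.injective (congrArg Subtype.val hij)

end Pool.Agent.H28Lm
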