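import Mathlib

namespace Pool.Agent.H28Lm

open MvPolynomial

theorem coeff_pd {R : Type*} [CommRing R] {ι : Type*} (i : ι) (p : MvPolynomial ι R)
    (m : ι →₀ ℕ) : coeff m (pderiv i p) =
      coeff (m + Finsupp.single i 1) p * ((m i : R) + 1) := by
  classical
  induction p using MvPolynomial.induction_on' with
  | monomial s a =>
    rw [pderiv_monomial, coeff_monomial, coeff_monomial]
    by_cases hs : s i = 0
    · have h1 : s ≠ m + Finsupp.single i 1 := by
        intro h
        rw [h] at hs
        simp at hs
      rw [if_neg h1, hs]
      simp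
    · by_cases h : s = m + Finsupp.single i 1
      · rw [if_pos h, if_pos (by rw [h]; simp), h]
        simp
      · rw [if_neg h, if_neg]
        · simp
        · intro h2
          apply h
          rw [← h2]
          ext j
          by_cases hj : j = i
          · subst hj
            simp
            omega
          · simp [Finsupp.single_apply, Ne.symm hj]
  | add p q hp hq =>
    rw [map_add, coeff_add, coeff_add, hp, hq]
    ring

theorem deg_pd {R : Type*} [CommRing R] {ι : Type*} (i : ι) (p : MvPolynomial ι R)
    (h : pderiv i p ≠ 0) : (pderiv i p).totalDegree < p.totalDegree := by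
  classical
  obtain ⟨m0, hm0⟩ := MvPolynomial.support_nonempty.2 h
  have key : ∀ m ∈ (pderiv i p).support, (m.sum fun _ e => e) + 1 ≤ p.totalDegree := by
    intro m hm
    rw [mem_support_iff, coeff_pd] at hm
    have h1 : coeff (m + Finsupp.single i 1) p ≠ 0 := fun h0 => hm (by rw [h0, zero_mul])
    have h2 := le_totalDegree (mem_support_iff.2 h1)
    rw [Finsupp.sum_add_index' (fun _ => rfl) (fun _ _ _ => rfl)] at h2
    simpa using h2
  have h3 := key m0 hm0
  rw [totalDegree, Finset.sup_lt_iff (by simp; omega)]
  intro m hm
  have := key m hm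
  omega

theorem const_pd {R : Type*} [CommRing R] [IsDomain R] [CharZero R] {ι : Type*}
    (p : MvPolynomial ι R) (h : ∀ i, pderiv i p = 0) : p = C (coeff 0 p) := by
  classical
  ext m
  rw [coeff_C]
  by_cases hm : (0 : ι →₀ ℕ) = m
  · rw [if_pos hm, ← hm]
  · rw [if_neg hm]
    have : ∃ i, m i ≠ 0 := by
      by_contra hc
      push Not at hc
      exact hm (by ext i; simp [hc i])
    obtain ⟨i, hi⟩ := this
    have h1 : m - Finsupp.single i 1 + Finsupp.single i 1 = m := by
      ext j
      by_cases hj : j = i
      · subst hj
        simp
        omega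
      · simp [Finsupp.single_apply, Ne.symm hj]
    have h2 := coeff_pd i p (m - Finsupp.single i 1)
    rw [h i, coeff_zero, h1] at h2
    rcases mul_eq_zero.1 h2.symm with h3 | h3
    · exact h3
    · exact absurd h3 (Nat.cast_add_one_ne_zero _)

theorem D_aeval {L : Type*} [Field L] (A : Subring L) {ι : Type*} [Fintype ι] (x : ι → L)
    (p : MvPolynomial ι A) : KaehlerDifferential.D A L (aeval x p) =
      ∑ i, aeval x (pderiv i p) • KaehlerDifferential.D A L (x i) := by
  classical
  induction p using MvPolynomial.induction_on with
  | C a => simp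
  | add p q hp hq =>
    rw [map_add, map_add, hp, hq, ← Finset.sum_add_distrib]
    refine Finset.sum_congr rfl fun i _ => ?_
    rw [map_add, map_add, add_smul]
  | mul_X p j hp =>
    rw [map_mul, Derivation.leibniz, hp, aeval_X, Finset.smul_sum]
    have : ∀ i, aeval x (pderiv i (p * X j)) • KaehlerDifferential.D A L (x i) =
        (if i = j then aeval x p • KaehlerDifferential.D A L (x j) else 0) +
          x j • aeval x (pderiv i p) • KaehlerDifferential.D A L (x i) := by
      intro i
      rw [Derivation.leibniz, pderiv_X]
      by_cases hij : i = j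
      · subst hij
        simp [add_smul, mul_smul]
      · have : (Pi.single i (1 : MvPolynomial ι A) : ι → MvPolynomial ι A) j = 0 :=
          Pi.single_eq_of_ne (Ne.symm hij) _
        simp [this, hij, mul_smul]
    rw [Finset.sum_congr rfl fun i _ => this i, Finset.sum_add_distrib,
      Finset.sum_ite_eq' Finset.univ j]
    simp

/-- **Package B**: linearly independent differentials give algebraic independence. -/
theorem alg_of_lin {L : Type*} [Field L] [CharZero L] (A : Subring L) {ι : Type*} [Finite ι]
    (x : ι → L)
    (h : LinearIndependent L (fun i => KaehlerDifferential.D A L (x i))) :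
    AlgebraicIndependent A x := by
  classical
  have := Fintype.ofFinite ι
  have : CharZero A := by
    refine ⟨fun a b hab => ?_⟩
    have := congrArg (fun t : A => (t : L)) hab
    simpa using this
  rw [algebraicIndependent_iff]
  suffices H : ∀ n : ℕ, ∀ p : MvPolynomial ι A, p.totalDegree ≤ n → aeval x p = 0 → p = 0 from
    fun p hp => H _ p le_rfl hp
  intro n
  induction n with
  | zero =>
    intro p hp h0
    have h1 := (totalDegree_eq_zero_iff_eq_C (p := p)).1 (Nat.le_zero.1 hp)
    rw [h1] at h0 ⊢
    rw [aeval_C] at h0
    have h2 : coeff 0 p = 0 := by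
      have : ((coeff 0 p : A) : L) = 0 := h0
      exact_mod_cast this
    rw [h2, C_0]
  | succ n ih =>
    intro p hp h0
    have h1 := D_aeval A x p
    rw [h0, map_zero] at h1
    have h2 := Fintype.linearIndependent_iff.1 h (fun i => aeval x (pderiv i p)) h1.symm
    have h3 : ∀ i, pderiv i p = 0 := by
      intro i
      by_contra hc
      exact hc (ih _ (by have := deg_pd i p hc; omega) (h2 i))
    have h4 := const_pd p h3
    rw [h4] at h0 ⊢
    rw [aeval_C] at h0
    have h5 : coeff 0 p = 0 := by
      have : ((coeff 0 p : A) : L) = 0 := h0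
      exact_mod_cast this
    rw [h5, C_0]

end Pool.Agent.H28Lm
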